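import Pool.Agent.Lib_helper24.SGA.Defs

/-!
# Project SGN, part A, second half (the Gaussian kernel, its inverse version, `D0`): definitions
-/

set_option autoImplicit false

namespace Pool.Agent.SGA

open MeasureTheory Matrix
open Pool.Agent.RS (Mt)

noncomputable section

/-- the density of `log |w|` for a Gaussian vector `w` of `ℝ^k` -/
def ld (k : ℕ) (v : ℝ) : ℝ :=
  2 * Real.pi ^ ((k : ℝ) / 2) / Real.Gamma ((k : ℝ) / 2) * Real.exp (k * v) *
    Real.exp (-(Real.pi * Real.exp (2 * v)))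

/-- the Gaussian function of vectors -/
def ph {k : ℕ} (w : Fin k → ℝ) : ℝ := Real.exp (-(Real.pi * ∑ j, w j ^ 2))

/-- the kernel `Ph(A) ψ(log |det A|) |det A|^(-n/2)` -/
def Gk (n : ℕ) (ψ : ℝ → ℝ) (A : Mt n) : ℝ :=
  Ph (Matrix.of A) * ψ (Real.log |(Matrix.of A).det|) * |(Matrix.of A).det| ^ (-((n : ℝ) / 2))

/-- real kernels with compact support in `GL_n(ℝ)`, invariant under orthogonal matrices -/
structure Kr (n : ℕ) (k : Mt n → ℝ) : Prop where
  cont : Continuous k
  supp : HasCompactSupport k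
  det : tsupport k ⊆ {h | (Matrix.of h).det ≠ 0}
  inv : ∀ o o' : Matrix (Fin n) (Fin n) ℝ, o * oᵀ = 1 → o' * o'ᵀ = 1 →
    ∀ h : Mt n, k (o * Matrix.of h * o') = k h

/-- the matrices of positive determinant -/
def detP (n : ℕ) : Set (Mt n) := {h | 0 < (Matrix.of h).det}

/-- the kernel of the inverse operator -/
def kin (n : ℕ) (k : Mt n → ℝ) (h : Mt n) : ℝ := |(Matrix.of h).det|⁻¹ ^ (2 * n) * k (iv h)

end

end Pool.Agent.SGA
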